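import Pool.Agent.H.MP_4a5b11_an.B

namespace Pool.Agent.Results.MP_4a5b11_an.Yes

/-- The Takagi function: the sum of `dist (2^n x, ℤ) / 2^n`. -/
noncomputable def takagi (x : ℝ) : ℝ :=
  ∑' n : ℕ, Metric.infDist (2 ^ n * x) (Set.range ((↑) : ℤ → ℝ)) / 2 ^ n

/-- The level set of the Takagi function on `[0,1]`. -/
def level (y : ℝ) : Set ℝ := {x | x ∈ Set.Icc (0 : ℝ) 1 ∧ takagi x = y}

open Pool.Agent.H.MP_4a5b11_an in
theorem result :
    (482 / 1025 : ℝ) ∈ Set.Icc (0 : ℝ) (2 / 3) ∧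
    (level (482 / 1025)).Countable ∧ (level (482 / 1025)).Infinite ∧
    ∀ m k : ℕ, k ≤ 2 ^ m → takagi (k / 2 ^ m) ≠ 482 / 1025 := by
  have h : level (482 / 1025) = S (0, 482) := by
    ext t
    simp only [level, S, Set.mem_ofPred_eq, Set.mem_Icc, and_assoc]
    push_cast
    rw [zero_mul, add_zero]
    rfl
  refine ⟨by norm_num, h ▸ cnt_top, h ▸ inf_top, fun m k _ => ?_⟩
  have := not_dyadic m k
  rw [Int.cast_natCast] at this
  exact this

end Pool.Agent.Results.MP_4a5b11_an.Yes
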